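import Pool.Agent.W495.TA.Final
import Pool.Agent.W366.TA.Val
import Pool.Agent.W64.TA.Ru
import Pool.Agent.W67.TA.BasisX
import Pool.Agent.W351.TA.Expand
import Pool.Agent.W82.TA.Pull
import Pool.Agent.W333.TA.Closed1
import Pool.Agent.W976.TA.Push
import Pool.Agent.W417.TA.Weil
import Pool.Agent.W978.TA.SS
import Pool.Agent.W736.TA.RankFour
import Pool.Agent.W345.TA.Rank5
import Pool.Agent.W29.TA.Gen
import Pool.Agent.W11.TA.Flip
import Pool.Agent.W928.TA.Induct

/-!
# The main theorem
-/

set_option autoImplicit false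

namespace Pool.Agent.W495.TA

theorem struct : S_struct := Pool.Agent.W29.TA.gen Pool.Agent.W736.TA.rank4 Pool.Agent.W345.TA.rank5

theorem main : S_main :=
  main_of_parts struct Pool.Agent.W11.TA.Flip.t_flip Pool.Agent.W928.TA.induct
    Pool.Agent.W366.TA.val Pool.Agent.W64.TA.ru Pool.Agent.W67.TA.basis Pool.Agent.W351.TA.expand
    Pool.Agent.W82.TA.pull Pool.Agent.W333.TA.closed1 Pool.Agent.W976.TA.push
    Pool.Agent.W417.TA.weil Pool.Agent.W978.TASS.ss

end Pool.Agent.W495.TA
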