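import Pool.Agent.W495.TA.Stms

/-!
# The assembly of the proof of the main theorem from its parts
-/

set_option autoImplicit false
set_option linter.unusedSectionVars false
set_option linter.unusedVariables false

namespace Pool.Agent.W495.TA

open NumberField Pool.Agent.H204R3.CM Pool.Agent.W547.KB Pool.Agent.W547.LD Module
open scoped TensorProduct

noncomputable section

section signs

variable {p : ℕ} [Fact p.Prime] {ν : PadicAlgCl p ≃+* ℂ}
  {L : Type} [Field L] [NumberField L] [IsCMField L] [IsGalois ℚ L] (j : L →+* ℂ) (A : CMPair)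

open Classical in
/-- The sign function of the CM type. -/
def eps (φ : A.E →+* L) : ℤ := if j.comp φ ∈ A.Φ then 1 else -1

theorem comp_smul_cc (φ : A.E →+* L) :
    j.comp (cc L • φ) = ComplexEmbedding.conjugate (j.comp φ) := by
  ext x
  change j (cc L (φ x)) = _
  rw [emb_cc, ComplexEmbedding.conjugate_coe_eq]
  rfl

theorem isSign_eps : IsSign (cc L) (eps j A) where
  sign φ := by
    unfold eps
    split_ifs
    · exact Or.inl rfl
    · exact Or.inr rfl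
  odd φ := by
    unfold eps
    rw [comp_smul_cc]
    have h := A.isCMType (j.comp φ)
    by_cases h1 : j.comp φ ∈ A.Φ
    · rw [if_pos h1, if_neg (h.1 h1)]
    · rw [if_neg h1, if_pos (by
        by_contra h2
        exact h1 (h.2 h2)), neg_neg]

theorem tf_hs (φ : A.E →+* L) :
    tf p ν j (hs A j φ) = nf (Dec p ν j) (eps j A) φ := by
  classical
  funext σ
  unfold tf nf
  refine Finset.sum_congr rfl fun d _ => ?_
  by_cases hd : d ∈ Dec p ν j
  · rw [if_pos hd, if_pos hd]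
    unfold eps
    rw [← mul_smul]
    rfl
  · rw [if_neg hd, if_neg hd]

theorem tf_hs_smul (φ : A.E →+* L) (σ : L ≃ₐ[ℚ] L) :
    tf p ν j (hs A j (σ • φ)) 1 = tf p ν j (hs A j φ) σ := by
  classical
  unfold tf
  refine Finset.sum_congr rfl fun d _ => ?_
  by_cases hd : d ∈ Dec p ν j
  · rw [if_pos hd, if_pos hd]
    have h : d * 1 ∈ hs A j (σ • φ) ↔ d * σ ∈ hs A j φ := by
      change j.comp ((d * 1) • (σ • φ)) ∈ A.Φ ↔ j.comp ((d * σ) • φ) ∈ A.Φ
      rw [mul_one, mul_smul]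
    simp only [h]
  · rw [if_neg hd, if_neg hd]

include j in
theorem setting : Setting (L ≃ₐ[ℚ] L) (A.E →+* L) (cc L) where
  comm g := cc_comm j g
  sq := cc_cc
  ne φ h := by
    have h1 := comp_smul_cc j A φ
    rw [h] at h1
    have h2 := A.isCMType (j.comp φ)
    rw [← h1] at h2
    exact iff_not_self h2
  trans φ φ' := by
    let _ := φ.toAlgebra
    have : IsScalarTower ℚ A.E L := inferInstance
    let ψ : A.E →ₐ[ℚ] L := RingHom.equivRatAlgHom A.E L φ'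
    let f : L →ₐ[ℚ] L := ψ.liftNormal L
    let g : L ≃ₐ[ℚ] L := AlgEquiv.ofBijective f (AlgHom.bijective f)
    refine ⟨g, ?_⟩
    ext x
    exact ψ.liftNormal_commutes L x

variable {j} {A}

theorem card_emb (hj : BigA A j) [Fintype (A.E →+* L)] :
    Fintype.card (A.E →+* L) = finrank ℚ A.E := by
  have hbij : Function.Bijective (fun φ : A.E →+* L => j.comp φ) := by
    constructor
    · intro φ φ' h
      ext a
      exact j.injective (RingHom.congr_fun h a)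
    · exact hj
  rw [← Nat.card_eq_fintype_card, Nat.card_eq_of_bijective _ hbij, Nat.card_eq_fintype_card,
    Embeddings.card]

/-- The CM type belonging to another sign function. -/
abbrev changeType (hj : BigA A j) (ε' : (A.E →+* L) → ℤ) (h : IsSign (cc L) ε') : CMPair where
  E := A.E
  Φ := {ψ | ∃ φ : A.E →+* L, j.comp φ = ψ ∧ ε' φ = 1}
  isCMType := by
    have key : ∀ φ : A.E →+* L, (∃ φ' : A.E →+* L, j.comp φ' = j.comp φ ∧ ε' φ' = 1) ↔
        ε' φ = 1 := by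
      intro φ
      constructor
      · rintro ⟨φ', h1, h2⟩
        have h3 : φ' = φ := by
          ext a
          exact j.injective (RingHom.congr_fun h1 a)
        rwa [← h3]
      · intro h1
        exact ⟨φ, rfl, h1⟩
    intro ψ
    obtain ⟨φ, rfl⟩ := hj ψ
    rw [← comp_smul_cc]
    change (∃ φ' : A.E →+* L, j.comp φ' = j.comp φ ∧ ε' φ' = 1) ↔
      ¬ (∃ φ' : A.E →+* L, j.comp φ' = j.comp (cc L • φ) ∧ ε' φ' = 1)
    rw [key, key, h.odd]
    rcases h.sign φ with h1 | h1 <;> rw [h1] <;> norm_num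

theorem mem_changeType (hj : BigA A j) (ε' : (A.E →+* L) → ℤ) (h : IsSign (cc L) ε')
    (φ : A.E →+* L) : ε' φ = 1 ↔ j.comp φ ∈ (changeType hj ε' h).Φ := by
  constructor
  · intro h1
    exact ⟨φ, rfl, h1⟩
  · rintro ⟨φ', h1, h2⟩
    have h3 : φ' = φ := by
      ext a
      exact j.injective (RingHom.congr_fun h1 a)
    rwa [← h3]

theorem eps_changeType (hj : BigA A j) (ε' : (A.E →+* L) → ℤ) (h : IsSign (cc L) ε')
    (φ : A.E →+* L) : eps j (changeType hj ε' h) φ = ε' φ := by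
  unfold eps
  rcases h.sign φ with h1 | h1
  · rw [if_pos ((mem_changeType hj ε' h φ).1 h1), h1]
  · rw [if_neg (fun h2 => by
      rw [(mem_changeType hj ε' h φ).2 h2] at h1
      norm_num at h1), h1]

theorem tf_changeType (hj : BigA A j) (ε' : (A.E →+* L) → ℤ) (h : IsSign (cc L) ε')
    (φ : A.E →+* L) :
    tf p ν j (hs (changeType hj ε' h) j φ) = nf (Dec p ν j) ε' φ := by
  rw [tf_hs]
  have h1 : eps j (changeType hj ε' h) = ε' := funext fun φ => eps_changeType hj ε' h φ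
  exact congrArg (fun e => nf (Dec p ν j) e φ) h1

end signs

/-! ### Valuations -/

section val

variable {p : ℕ} [Fact p.Prime] {ν : PadicAlgCl p ≃+* ℂ}
  {L : Type} [Field L] [NumberField L] [IsCMField L] [IsGalois ℚ L] {j : L →+* ℂ}

theorem norm_p_pos : 0 < ‖(p : PadicAlgCl p)‖ := by
  rw [norm_pos_iff]
  exact Nat.cast_ne_zero.2 (Fact.out : p.Prime).ne_zero

theorem norm_p_lt : ‖(p : PadicAlgCl p)‖ < 1 := by
  have h : ((p : ℚ_[p]) : PadicAlgCl p) = (p : PadicAlgCl p) := by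
    exact map_natCast (algebraMap ℚ_[p] (PadicAlgCl p)) p
  rw [← h, PadicAlgCl.norm_extends]
  exact Padic.norm_p_lt_one

theorem zpow_sum' {ι : Type} {x : ℝ} (hx : x ≠ 0) (s : Finset ι) (f : ι → ℤ) :
    x ^ (∑ i ∈ s, f i) = ∏ i ∈ s, x ^ f i := by
  classical
  induction s using Finset.induction_on with
  | empty => rw [Finset.sum_empty, Finset.prod_empty, zpow_zero]
  | insert a s ha ih => rw [Finset.sum_insert ha, Finset.prod_insert ha, zpow_add₀ hx, ih]

theorem zpow_inj {x y : ℤ} (h : ‖(p : PadicAlgCl p)‖ ^ x = ‖(p : PadicAlgCl p)‖ ^ y) : x = y :=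
  zpow_right_injective₀ norm_p_pos norm_p_lt.ne h

/-- The formula for the valuations of all conjugates. -/
theorem val_conj (hval : S_val) (A : CMPair) (hj : BigA A j) (a : ℕ) (π : A.E)
    (hπ : IsFrobenius p ν A a π) (φ : A.E →+* L) (σ : L ≃ₐ[ℚ] L) :
    ‖ν.symm (j (σ (φ π)))‖ ^ (2 * (Nat.card (Dec p ν j) : ℤ)) =
      ‖(p : PadicAlgCl p)‖ ^ ((a : ℤ) * ((Nat.card (Dec p ν j) : ℤ) + tf p ν j (hs A j φ) σ)) := by
  have h := (hval p ν L j A hj a π).1 hπ.shimuraTaniyama (σ • φ)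
  rw [tf_hs_smul, norm_pow, ← zpow_natCast, ← zpow_mul] at h
  exact h

end val

section eigen

variable {p : ℕ} [Fact p.Prime] {ν : PadicAlgCl p ≃+* ℂ} {Ω : Type} [Field Ω] [CharZero Ω]
  {L : Type} [Field L] (jO : L →+* Ω) {Y : RedAV p ν}

theorem co_tmul (w : Wt Y.X L) (a : Ω) (x : Y.X.H1) :
    co jO w (a ⊗ₜ[ℚ] x) = a * jO (w.2 (x w.1)) := by
  unfold co
  rw [LinearMap.liftBaseChange_tmul]
  rfl

theorem co_F (w : Wt Y.X L) (v : TM Ω Y) :
    co jO w (F Ω Y v) = jO (w.2 (Y.π w.1)) * co jO w v := by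
  induction v using TensorProduct.induction_on with
  | zero => rw [map_zero, map_zero, mul_zero]
  | tmul a x =>
    have h : F Ω Y (a ⊗ₜ[ℚ] x) = a ⊗ₜ[ℚ] mulFrob Y x := LinearMap.baseChange_tmul _ _ _
    rw [h, co_tmul, co_tmul]
    change a * jO (w.2 (Y.π w.1 * x w.1)) = _
    rw [map_mul, map_mul]
    ring
  | add x y hx hy => rw [map_add, map_add, hx, hy, map_add, mul_add]

variable (e : Basis (Wt Y.X L) Ω (TM Ω Y))

theorem ext_co [Finite (Wt Y.X L)] (h1 : ∀ w, co jO w (e w) = 1)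
    (h2 : ∀ w w', w ≠ w' → co jO w (e w') = 0) (v v' : TM Ω Y)
    (h : ∀ w, co jO w v = co jO w v') : v = v' := by
  classical
  have := Fintype.ofFinite (Wt Y.X L)
  have key : ∀ (v : TM Ω Y) (w : Wt Y.X L), e.repr v w = co jO w v := by
    intro v w
    conv_rhs => rw [← e.sum_repr v]
    rw [map_sum, Finset.sum_eq_single w]
    · rw [map_smul, h1, smul_eq_mul, mul_one]
    · intro w' _ hw
      rw [map_smul, h2 w w' hw.symm, smul_zero]
    · intro hw
      exact absurd (Finset.mem_univ _) hw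
  apply e.repr.injective
  ext w
  rw [key, key, h]

theorem F_e [Finite (Wt Y.X L)] (h1 : ∀ w, co jO w (e w) = 1)
    (h2 : ∀ w w', w ≠ w' → co jO w (e w') = 0) (w : Wt Y.X L) :
    F Ω Y (e w) = jO (w.2 (Y.π w.1)) • e w := by
  refine ext_co jO e h1 h2 _ _ fun w' => ?_
  rw [co_F, map_smul, smul_eq_mul]
  by_cases hw : w' = w
  · rw [hw]
  · rw [h2 w' w hw, mul_zero, mul_zero]

theorem F_pow_e [Finite (Wt Y.X L)] (h1 : ∀ w, co jO w (e w) = 1)
    (h2 : ∀ w w', w ≠ w' → co jO w (e w') = 0) (w : Wt Y.X L) (s : ℕ) :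
    (F Ω Y ^ s) (e w) = (jO (w.2 (Y.π w.1))) ^ s • e w := by
  induction s with
  | zero => rw [pow_zero, pow_zero, one_smul]; rfl
  | succ s ih =>
    rw [pow_succ']
    change F Ω Y ((F Ω Y ^ s) (e w)) = _
    rw [ih, map_smul, F_e jO e h1 h2, smul_smul, pow_succ]

end eigen

section final

variable {p : ℕ} [Fact p.Prime] {ν : PadicAlgCl p ≃+* ℂ} {Ω : Type} [Field Ω] [CharZero Ω]
  {L : Type} [Field L] [NumberField L] [IsCMField L] [IsGalois ℚ L] {j : L →+* ℂ}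
  (jO : L →+* Ω) {Y : RedAV p ν}

/-- The weights occurring in a Tate class are balanced. -/
theorem balanced (hval : S_val) (hY : Big Y.X j) (e : Basis (Wt Y.X L) Ω (TM Ω Y))
    (h1 : ∀ w, co jO w (e w) = 1) (h2 : ∀ w w', w ≠ w' → co jO w (e w') = 0) (s m : ℕ)
    (hs0 : 0 < s) (f : (TM Ω Y) [⋀^Fin (2 * m)]→ₗ[Ω] Ω) (hf : IsTateClass Ω Y s m f)
    (I : Fin (2 * m) → Wt Y.X L) (hI : f (fun k => e (I k)) ≠ 0) (σ : L ≃ₐ[ℚ] L) :
    ∑ k, tf p ν j (St j (I k)) σ = 0 := by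
  have h3 := hf (fun k => e (I k))
  have h4 : (fun k => (F Ω Y ^ s) (e (I k))) =
      fun k => (jO ((I k).2 (Y.π (I k).1))) ^ s • e (I k) :=
    funext fun k => F_pow_e jO e h1 h2 (I k) s
  rw [h4, AlternatingMap.map_smul_univ, smul_eq_mul] at h3
  have h5 : ∏ k, (jO ((I k).2 (Y.π (I k).1))) ^ s = ((p : Ω) ^ Y.a) ^ (m * s) :=
    mul_right_cancel₀ hI h3
  have h6 : ∏ k, ((I k).2 (Y.π (I k).1)) ^ s = ((p : L) ^ Y.a) ^ (m * s) := by
    apply jO.injective
    rw [map_prod, map_pow, map_pow, map_natCast, ← h5]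
    exact Finset.prod_congr rfl fun k _ => map_pow _ _ _
  have h7 := congrArg (fun x => ‖ν.symm (j (σ x))‖ ^ (2 * (Nat.card (Dec p ν j) : ℤ))) h6
  simp only [map_prod, map_pow, map_natCast] at h7
  have h8 : ∀ k, ‖ν.symm (j (σ ((I k).2 (Y.π (I k).1))))‖ ^ (2 * (Nat.card (Dec p ν j) : ℤ)) =
      ‖(p : PadicAlgCl p)‖ ^ ((Y.a : ℤ) * ((Nat.card (Dec p ν j) : ℤ) +
        tf p ν j (St j (I k)) σ)) := fun k =>
    val_conj hval (Y.X.factor (I k).1) (hY _) Y.a (Y.π (I k).1) (Y.frob (I k).1) (I k).2 σ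
  rw [norm_prod, ← Finset.prod_zpow] at h7
  have h9 : ∀ k, ‖(ν.symm (j (σ ((I k).2 (Y.π (I k).1)))) ^ s)‖ ^
      (2 * (Nat.card (Dec p ν j) : ℤ)) = ‖(p : PadicAlgCl p)‖ ^ ((Y.a : ℤ) *
        ((Nat.card (Dec p ν j) : ℤ) + tf p ν j (St j (I k)) σ) * s) := by
    intro k
    rw [norm_pow, ← zpow_natCast, ← zpow_mul, mul_comm, zpow_mul, h8, ← zpow_mul]
  rw [Finset.prod_congr rfl fun k _ => h9 k] at h7
  have h10 : ∏ k, ‖(p : PadicAlgCl p)‖ ^ ((Y.a : ℤ) *
        ((Nat.card (Dec p ν j) : ℤ) + tf p ν j (St j (I k)) σ) * s) =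
      ‖(p : PadicAlgCl p)‖ ^ (∑ k, (Y.a : ℤ) *
        ((Nat.card (Dec p ν j) : ℤ) + tf p ν j (St j (I k)) σ) * s) := by
    refine (zpow_sum' norm_p_pos.ne' _ _).symm
  rw [h10, norm_pow, norm_pow, ← zpow_natCast, ← zpow_natCast, ← zpow_mul, ← zpow_mul] at h7
  have h11 := zpow_inj h7
  rw [← Finset.sum_mul, ← Finset.mul_sum, Finset.sum_add_distrib, Finset.sum_const,
    Finset.card_univ, Fintype.card_fin, nsmul_eq_mul] at h11
  push_cast at h11
  have ha : (Y.a : ℤ) ≠ 0 := by exact_mod_cast Y.pos.ne'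
  have hs1 : (s : ℤ) ≠ 0 := by exact_mod_cast hs0.ne'
  have h12 : ((Y.a : ℤ) * s) * ∑ k, tf p ν j (St j (I k)) σ = 0 := by linarith
  exact (mul_eq_zero.1 h12).resolve_left (mul_ne_zero ha hs1)

/-- The functions of the weights. -/
theorem tf_cases (hval : S_val) (hY : Big Y.X j) {A : CMPair} (hA : BigA A j) {b : ℕ}
    (hb : 0 < b) {ϖ : A.E} (hϖ : IsFrobenius p ν A b ϖ) (hp : IsPowerTimesSupersingular A b ϖ Y)
    (w : Wt Y.X L) :
    tf p ν j (St j w) = 0 ∨ ∃ φ : A.E →+* L, tf p ν j (St j w) = tf p ν j (hs A j φ) := by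
  obtain ⟨i, φ⟩ := w
  have h8 : ∀ σ : L ≃ₐ[ℚ] L, ‖ν.symm (j (σ (φ (Y.π i))))‖ ^ (2 * (Nat.card (Dec p ν j) : ℤ)) =
      ‖(p : PadicAlgCl p)‖ ^ ((Y.a : ℤ) * ((Nat.card (Dec p ν j) : ℤ) +
        tf p ν j (St j (⟨i, φ⟩ : Wt Y.X L)) σ)) := fun σ =>
    val_conj hval (Y.X.factor i) (hY _) Y.a (Y.π i) (Y.frob i) φ σ
  have ha : (Y.a : ℤ) ≠ 0 := by exact_mod_cast Y.pos.ne'
  rcases hp i with ⟨s, hs0, h⟩ | ⟨ι, s, t, hs0, ht0, hst, h⟩
  · left
    funext σ
    have hs1 : (s : ℤ) ≠ 0 := by exact_mod_cast hs0.ne'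
    have h1 := congrArg (fun x => ‖ν.symm (j (σ (φ x)))‖ ^ (2 * (Nat.card (Dec p ν j) : ℤ))) h
    simp only [map_pow, map_natCast, norm_pow] at h1
    have h2 : (‖ν.symm (j (σ (φ (Y.π i))))‖ ^ (2 * s)) ^ (2 * (Nat.card (Dec p ν j) : ℤ)) =
        ‖(p : PadicAlgCl p)‖ ^ ((Y.a : ℤ) * ((Nat.card (Dec p ν j) : ℤ) +
        tf p ν j (St j (⟨i, φ⟩ : Wt Y.X L)) σ) * (2 * s : ℕ)) := by
      rw [← zpow_natCast, ← zpow_mul, mul_comm, zpow_mul, h8, ← zpow_mul]
    rw [h2, ← zpow_natCast, ← zpow_natCast, ← zpow_mul, ← zpow_mul] at h1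
    have h3 := zpow_inj h1
    push_cast at h3
    have h4 : ((Y.a : ℤ) * s) * (2 * tf p ν j (St j (⟨i, φ⟩ : Wt Y.X L)) σ) = 0 := by linarith
    have h5 := (mul_eq_zero.1 h4).resolve_left (mul_ne_zero ha hs1)
    change tf p ν j (St j (⟨i, φ⟩ : Wt Y.X L)) σ = 0
    omega
  · right
    refine ⟨φ.comp ι, ?_⟩
    funext σ
    have h1 := congrArg (fun x => ‖ν.symm (j (σ (φ x)))‖ ^ (2 * (Nat.card (Dec p ν j) : ℤ))) h
    simp only [map_pow, norm_pow] at h1
    have h7 : ‖ν.symm (j (σ (φ (ι ϖ))))‖ ^ (2 * (Nat.card (Dec p ν j) : ℤ)) =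
      ‖(p : PadicAlgCl p)‖ ^ ((b : ℤ) * ((Nat.card (Dec p ν j) : ℤ) +
        tf p ν j (hs A j (φ.comp ι)) σ)) := val_conj hval A hA b ϖ hϖ (φ.comp ι) σ
    have h2 : (‖ν.symm (j (σ (φ (Y.π i))))‖ ^ s) ^ (2 * (Nat.card (Dec p ν j) : ℤ)) =
        ‖(p : PadicAlgCl p)‖ ^ ((Y.a : ℤ) * ((Nat.card (Dec p ν j) : ℤ) +
        tf p ν j (St j (⟨i, φ⟩ : Wt Y.X L)) σ) * (s : ℕ)) := by
      rw [← zpow_natCast, ← zpow_mul, mul_comm, zpow_mul, h8, ← zpow_mul]
    have h3 : (‖ν.symm (j (σ (φ (ι ϖ))))‖ ^ t) ^ (2 * (Nat.card (Dec p ν j) : ℤ)) =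
        ‖(p : PadicAlgCl p)‖ ^ ((b : ℤ) * ((Nat.card (Dec p ν j) : ℤ) +
        tf p ν j (hs A j (φ.comp ι)) σ) * (t : ℕ)) := by
      rw [← zpow_natCast, ← zpow_mul, mul_comm, zpow_mul, h7, ← zpow_mul]
    rw [h2, h3] at h1
    have h4 := zpow_inj h1
    have h5 : ((Y.a : ℤ) * s) = b * t := by exact_mod_cast hst
    have h6 : ((b : ℤ) * t) ≠ 0 := by
      have h61 : b * t ≠ 0 := (Nat.mul_pos hb ht0).ne'
      exact_mod_cast h61
    have h9 : ((b : ℤ) * t) * ((Nat.card (Dec p ν j) : ℤ) +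
        tf p ν j (St j (⟨i, φ⟩ : Wt Y.X L)) σ) =
        ((b : ℤ) * t) * ((Nat.card (Dec p ν j) : ℤ) + tf p ν j (hs A j (φ.comp ι)) σ) := by
      calc _ = ((Y.a : ℤ) * s) * ((Nat.card (Dec p ν j) : ℤ) +
          tf p ν j (St j (⟨i, φ⟩ : Wt Y.X L)) σ) := by rw [h5]
        _ = (Y.a : ℤ) * ((Nat.card (Dec p ν j) : ℤ) +
          tf p ν j (St j (⟨i, φ⟩ : Wt Y.X L)) σ) * s := by ring
        _ = _ := by rw [h4]; ring
    have h10 := mul_left_cancel₀ h6 h9
    linarith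

end final

/-- The main theorem from its parts. -/
theorem main_of_parts (hstruct : S_struct) (hflip : S_flip) (hind : S_induct) (hval : S_val)
    (hru : S_ru) (hbasis : S_basis) (hexp : S_expand) (hpull : S_pull) (hcl : S_closed1)
    (hpush : S_push) (hweil : S_weil) (hss : S_ss) : S_main := by
  classical
  intro p _ ν A hA b hb ϖ hϖ Ω _ _ _ Y hY s m hs0 f hf
  have hne : Nonempty (Y.X.prod (single A)).I := ⟨Sum.inr ()⟩
  obtain ⟨L, _, _, _, _, j, hj⟩ := exists_cm (Y.X.prod (single A))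
  have hYj : Big Y.X j := fun i ψ => hj (Sum.inl i) ψ
  have hAj : BigA A j := fun ψ => hj (Sum.inr ()) ψ
  let jO : L →+* Ω := ((IsAlgClosed.lift : L →ₐ[ℚ] Ω) : L →+* Ω)
  obtain ⟨e, h1, h2⟩ := hbasis p ν Ω L j jO Y hYj
  refine hexp p ν Ω L jO Y e h1 h2 _ f fun I hI => ?_
  have hbal := balanced jO hval hYj e h1 h2 s m hs0 f hf I hI
  have hcases : ∀ k, tf p ν j (St j (I k)) = 0 ∨
      ∃ φ : A.E →+* L, tf p ν j (St j (I k)) = tf p ν j (hs A j φ) := fun k =>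
    tf_cases hval hYj hAj hb hϖ hY (I k)
  have : Finite (A.E →+* L) := by
    refine Finite.of_injective (fun φ : A.E →+* L => j.comp φ) ?_
    intro φ φ' h
    ext a
    exact j.injective (RingHom.congr_fun h a)
  have := Fintype.ofFinite (A.E →+* L)
  have hcard : Fintype.card (A.E →+* L) ≤ 10 := (card_emb hAj).trans_le hA
  have hset := setting j A (L := L)
  obtain ⟨c1, c2, c3, c4⟩ := hcl hval hru p ν Ω L j jO
  have hclosed : Closed (L ≃ₐ[ℚ] L) (AlgM p ν j jO) := ⟨c1, c2, c3, c4⟩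
  have key := hind hstruct hflip (L ≃ₐ[ℚ] L) (A.E →+* L) (cc L) hset (Dec p ν j) (eps j A)
    (isSign_eps j A) hcard (AlgM p ν j jO) hclosed ?_ (Fin (2 * m))
    (fun k => tf p ν j (St j (I k))) ?_ ?_ ?_
  · exact key Y hYj I fun k => rfl
  · intro ε' s' r u hε' hnf hinj hs' hsemi hr hu hbl hsum
    have hA'j : BigA (changeType hAj ε' hε') j := hAj
    have htf : ∀ φ : A.E →+* L, tf p ν j (hs (changeType hAj ε' hε') j φ) =
        nf (Dec p ν j) (eps j A) φ := fun φ =>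
      (tf_changeType hAj ε' hε' φ).trans (hnf φ)
    have hfrob : IsFrobenius p ν (changeType hAj ε' hε') b ϖ := by
      refine ⟨hϖ.integral, hϖ.weil, ?_⟩
      refine (hval p ν L j (changeType hAj ε' hε') hA'j b ϖ).2 fun φ => ?_
      have h3 := (hval p ν L j A hAj b ϖ).1 hϖ.shimuraTaniyama φ
      rw [tf_hs] at h3
      rw [htf φ]
      exact h3
    have hinj' : Function.Injective fun φ : A.E →+* L =>
        tf p ν j (hs (changeType hAj ε' hε') j φ) := by
      have h3 : (fun φ : A.E →+* L => tf p ν j (hs (changeType hAj ε' hε') j φ)) =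
          nf (Dec p ν j) (eps j A) := funext htf
      rw [h3]
      exact hinj
    have hsum' : ∀ σ, ∑ φ : A.E →+* L, s' φ * tf p ν j (hs (changeType hAj ε' hε') j φ) σ = 0 := by
      intro σ
      rw [← hsum σ]
      exact Finset.sum_congr rfl fun φ _ => by rw [htf]
    constructor
    · have h4 : (Sum.elim (fun φ : {φ : A.E →+* L // s' φ = 1} =>
          tf p ν j (hs (changeType hAj ε' hε') j φ.1)) fun _ : Fin r => 0) =
          Sum.elim (fun x : {x : A.E →+* L // s' x = 1} => nf (Dec p ν j) (eps j A) x.1)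
            fun _ : Fin r => 0 := by
        congr 1
        funext φ
        exact htf φ.1
      rw [← h4]
      intro _ _
      exact hweil hval hru hbasis hpull p ν Ω L j jO (changeType hAj ε' hε') hA'j b hb ϖ
        hfrob hinj' ε' s' (mem_changeType hAj ε' hε') hε' hs' hsemi r u hr hu hbl hsum'
    · intro hr0
      obtain ⟨E, hE, w, hw⟩ := hss hval p ν L j (changeType hAj ε' hε') hA'j ε' s'
        (mem_changeType hAj ε' hε') hε' hs' hsemi r u hu hbl hsum' hr0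
      intro κ _ t ht
      exact hpush hbasis p ν Ω L j jO E hE w hw κ t ht
  · intro k
    rcases hcases k with h | ⟨φ, h⟩
    · exact Or.inl h
    · exact Or.inr ⟨φ, h.trans (tf_hs j A φ)⟩
  · exact hbal
  · rw [Fintype.card_fin]
    exact even_two_mul m

end

end Pool.Agent.W495.TA
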