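import Pool.Agent.W547.LD.Defs

/-!
# Abelian varieties over finite fields as reductions of abelian varieties of CM type, and the
cohomology classes generated by Tate classes of degree two and by split Weil classes of degree
four and six
-/

set_option autoImplicit false

namespace Pool.Agent.W495.TA

open NumberField Pool.Agent.H204R3.CM Pool.Agent.W547.KB Pool.Agent.W547.LD
open scoped TensorProduct

noncomputable section

/-- We fix an isomorphism `ν` of an algebraic closure of `ℚ_p` with the field of complex numbers,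
that is, a place of the field of algebraic numbers above `p`. Two complex embeddings `φ`, `φ'` of a
number field define the same `p`-adic place of this field (by `ν`): they are conjugate over `ℚ_p`. -/
def SamePlace (p : ℕ) [Fact p.Prime] (ν : PadicAlgCl p ≃+* ℂ) {E : Type} [Field E]
    (φ φ' : E →+* ℂ) : Prop :=
  ∃ τ : PadicAlgCl p ≃ₐ[ℚ_[p]] PadicAlgCl p, ∀ x, φ' x = ν (τ (ν.symm (φ x)))

/-- `π ∈ E` is the Frobenius endomorphism of the reduction, at the place given by `ν`, of the abelian
variety with complex multiplication by the CM field `E` and CM type `Φ`; the residue field has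
`p ^ a` elements. So `π` is a Weil number in `E` for `p ^ a`, and the formula of Shimura and
Taniyama holds: for the place of `E` above `p` given by an embedding `φ`, the valuation of `π`,
normalised by the valuation of `p ^ a`, is the number of elements of `Φ` that define this place,
divided by the number of all embeddings that define this place (the local degree). By the theorems
of Honda and Tate each simple abelian variety over an algebraic closure of the field with `p`
elements is isogenous to such a reduction, and the isogeny class of the reduction over the algebraic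
closure is determined by this formula. -/
structure IsFrobenius (p : ℕ) [Fact p.Prime] (ν : PadicAlgCl p ≃+* ℂ) (A : CMPair) (a : ℕ)
    (π : A.E) : Prop where
  integral : IsIntegral ℤ π
  weil : ∀ φ : A.E →+* ℂ, ‖φ π‖ ^ 2 = (p : ℝ) ^ a
  shimuraTaniyama : ∀ φ : A.E →+* ℂ,
    ‖ν.symm (φ π)‖ ^ Nat.card {φ' : A.E →+* ℂ // SamePlace p ν φ φ'} =
      ‖(p : PadicAlgCl p) ^ a‖ ^ Nat.card {φ' : A.E →+* ℂ // SamePlace p ν φ φ' ∧ φ' ∈ A.Φ}

/-- An abelian variety over the field with `p ^ a` elements: (up to isogeny) the reduction of a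
finite product `X` of abelian varieties with complex multiplication by CM fields `E i`, with Frobenius
endomorphism `π = (π i)`. Over an algebraic closure of the field with `p` elements each abelian
variety is isogenous to one of these. -/
structure RedAV (p : ℕ) [Fact p.Prime] (ν : PadicAlgCl p ≃+* ℂ) where
  X : CMAV
  a : ℕ
  pos : 0 < a
  π : X.H1
  frob : ∀ i, IsFrobenius p ν (X.factor i) a (π i)

variable {p : ℕ} [Fact p.Prime] {ν : PadicAlgCl p ≃+* ℂ}

/-- The Tate module of the reduction, with coefficients in the field `Ω` (think of an algebraic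
closure of `ℚ_ℓ`): it is `Ω ⊗ H_1(X, ℚ)`. -/
abbrev TM (Ω : Type) [Field Ω] [CharZero Ω] (Y : RedAV p ν) : Type := Ω ⊗[ℚ] Y.X.H1

/-- The multiplication by `π` on `H_1(X, ℚ)`, the product of the fields `E i`. -/
def mulFrob (Y : RedAV p ν) : Y.X.H1 →ₗ[ℚ] Y.X.H1 where
  toFun w := fun i => Y.π i * w i
  map_add' w w' := by
    funext i
    exact mul_add _ _ _
  map_smul' c w := by
    funext i
    exact mul_smul_comm c _ (w i)

variable (Ω : Type) [Field Ω] [CharZero Ω]

/-- The Frobenius endomorphism of the Tate module. -/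
def F (Y : RedAV p ν) : TM Ω Y →ₗ[Ω] TM Ω Y := (mulFrob Y).baseChange Ω

/-- An alternating form `f` in the variables `κ` on the Tate module (a cohomology class of degree
`card κ = 2 m` of the abelian variety `Y`, with coefficients in `Ω`) is a Tate class over the
extension of degree `s` of the ground field with `q = p ^ a` elements: the `s`-th power of the
Frobenius endomorphism multiplies `f` by `q ^ {m s}`. -/
def IsTateClass (Y : RedAV p ν) (s m : ℕ) {κ : Type} (f : (TM Ω Y) [⋀^κ]→ₗ[Ω] Ω) : Prop :=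
  ∀ v : κ → TM Ω Y, f (fun k => (F Ω Y ^ s) (v k)) = ((p : Ω) ^ Y.a) ^ (m * s) * f v

/-- A linear map of the Tate modules that commutes with the Frobenius endomorphisms over a common
finite extension of the ground fields: by the theorem of Tate these are the linear combinations,
with coefficients in `Ω`, of the homomorphisms `Y → Y'` over finite extensions. -/
def IsFrobHom (Y Y' : RedAV p ν) (h : TM Ω Y →ₗ[Ω] TM Ω Y') : Prop :=
  ∃ s t : ℕ, 0 < s ∧ 0 < t ∧ Y.a * s = Y'.a * t ∧ ∀ v, h ((F Ω Y ^ s) v) = (F Ω Y' ^ t) (h v)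

/-- The smallest system of cohomology classes, with coefficients in `Ω`, of abelian varieties over
finite fields (alternating forms `f` on the Tate module in variables indexed by the finite set `κ`)
which contains the classes of degree zero, the Tate classes of degree two over finite extensions and
the Weil classes of imaginary quadratic fields on abelian varieties of CM type of dimension four or
six and of split Weil type, and which is stable under linear combinations, cup products, pull-backs
along homomorphisms, and push-forwards along projections. -/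
inductive Alg : (Y : RedAV p ν) → (κ : Type) → ((TM Ω Y) [⋀^κ]→ₗ[Ω] Ω) → Prop
  /-- classes of degree zero -/
  | unit {Y : RedAV p ν} {κ : Type} [IsEmpty κ] (f : (TM Ω Y) [⋀^κ]→ₗ[Ω] Ω) : Alg Y κ f
  /-- Tate classes of degree two over finite extensions (classes of divisors, by the theorem of
  Tate) -/
  | divisor {Y : RedAV p ν} {κ : Type} (hκ : Nat.card κ = 2) (f : (TM Ω Y) [⋀^κ]→ₗ[Ω] Ω) (s : ℕ)
      (hs : 0 < s) (hf : IsTateClass Ω Y s 1 f) : Alg Y κ f
  /-- reductions of split Weil classes on abelian fourfolds and sixfolds of CM type (algebraic by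
  theorems of Markman) -/
  | weil {Y : RedAV p ν} {n : ℕ} (hn : n = 4 ∨ n = 6) (f : Y.X.H1 [⋀^Fin n]→ₗ[ℚ] ℚ)
      (hf : IsSplitWeilClass Y.X n f) (g : (TM Ω Y) [⋀^Fin n]→ₗ[Ω] Ω)
      (hg : ∀ v : Fin n → Y.X.H1, g (fun k => 1 ⊗ₜ[ℚ] v k) = ((f v : ℚ) : Ω)) : Alg Y (Fin n) g
  | zero (Y : RedAV p ν) (κ : Type) : Alg Y κ 0
  | add {Y : RedAV p ν} {κ : Type} (f g : (TM Ω Y) [⋀^κ]→ₗ[Ω] Ω) (hf : Alg Y κ f)
      (hg : Alg Y κ g) : Alg Y κ (f + g)
  | smul {Y : RedAV p ν} {κ : Type} (c : Ω) (f : (TM Ω Y) [⋀^κ]→ₗ[Ω] Ω) (hf : Alg Y κ f) :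
      Alg Y κ (c • f)
  /-- renaming of the variables -/
  | reindex {Y : RedAV p ν} {κ κ' : Type} (e : κ ≃ κ') (f : (TM Ω Y) [⋀^κ]→ₗ[Ω] Ω)
      (hf : Alg Y κ f) : Alg Y κ' (f.domDomCongr e)
  /-- cup products (up to a factor) -/
  | cup {Y : RedAV p ν} {κ κ' : Type} [Fintype κ] [DecidableEq κ] [Fintype κ'] [DecidableEq κ']
      (f : (TM Ω Y) [⋀^κ]→ₗ[Ω] Ω) (g : (TM Ω Y) [⋀^κ']→ₗ[Ω] Ω) (hf : Alg Y κ f) (hg : Alg Y κ' g)
      (h : (TM Ω Y) [⋀^κ ⊕ κ']→ₗ[Ω] Ω)
      (hh : ∀ v : κ ⊕ κ' → TM Ω Y, h v = ∑ σ : Equiv.Perm (κ ⊕ κ'),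
        ((Equiv.Perm.sign σ : ℤ) : Ω) *
          (f (fun k => v (σ (Sum.inl k))) * g (fun k => v (σ (Sum.inr k))))) :
      Alg Y (κ ⊕ κ') h
  /-- pull-back along a homomorphism -/
  | pull {Y Z : RedAV p ν} {κ : Type} (h : TM Ω Y →ₗ[Ω] TM Ω Z) (hh : IsFrobHom Ω Y Z h)
      (f : (TM Ω Z) [⋀^κ]→ₗ[Ω] Ω) (hf : Alg Z κ f) : Alg Y κ (f.compLinearMap h)
  /-- push-forward (integration over the fibres) along a projection `Z → Y`, where `Z` is isogenous
  to `Y × Y'` by the inclusions `h` and `h'`: insert a basis of the Tate module of `Y'` -/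
  | push {Y Y' Z : RedAV p ν} {κ κ' : Type} (h : TM Ω Y →ₗ[Ω] TM Ω Z) (h' : TM Ω Y' →ₗ[Ω] TM Ω Z)
      (hh : IsFrobHom Ω Y Z h) (hh' : IsFrobHom Ω Y' Z h')
      (hb : Function.Bijective (fun v : TM Ω Y × TM Ω Y' => h v.1 + h' v.2))
      (b : Module.Basis κ' Ω (TM Ω Y')) (f : (TM Ω Z) [⋀^κ ⊕ κ']→ₗ[Ω] Ω)
      (hf : Alg Z (κ ⊕ κ') f) (g : (TM Ω Y) [⋀^κ]→ₗ[Ω] Ω)
      (hg : ∀ v : κ → TM Ω Y, g v = f (Sum.elim (fun k => h (v k)) (fun k => h' (b k)))) :
      Alg Y κ g

/-- The abelian variety `Y` is (over an algebraic closure) isogenous to a product of a power of the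
abelian variety `B` and of a supersingular abelian variety, where `B` is the reduction of an
abelian variety with complex multiplication by the field `A.E`, with Frobenius endomorphism `ϖ`
over the field with `p ^ b` elements: for each factor of `Y`, either a power of its Frobenius
endomorphism is a power of `p`, or a power of it is a power of `ϖ`, for an embedding of the fields. -/
def IsPowerTimesSupersingular (A : CMPair) (b : ℕ) (ϖ : A.E) (Y : RedAV p ν) : Prop :=
  ∀ i, (∃ s : ℕ, 0 < s ∧ (Y.π i) ^ (2 * s) = ((p : (Y.X.factor i).E) ^ Y.a) ^ s) ∨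
    ∃ (ι : A.E →+* (Y.X.factor i).E) (s t : ℕ), 0 < s ∧ 0 < t ∧ Y.a * s = b * t ∧
      (Y.π i) ^ s = ι (ϖ ^ t)

/-- The main theorem. -/
def S_main : Prop :=
  ∀ (p : ℕ) [Fact p.Prime] (ν : PadicAlgCl p ≃+* ℂ) (A : CMPair)
    (_hA : Module.finrank ℚ A.E ≤ 10) (b : ℕ) (_hb : 0 < b) (ϖ : A.E)
    (_hϖ : IsFrobenius p ν A b ϖ) (Ω : Type) [Field Ω] [IsAlgClosed Ω] [CharZero Ω]
    (Y : RedAV p ν) (_hY : IsPowerTimesSupersingular A b ϖ Y) (s m : ℕ) (_hs : 0 < s)
    (f : (TM Ω Y) [⋀^Fin (2 * m)]→ₗ[Ω] Ω) (_hf : IsTateClass Ω Y s m f),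
    Alg Ω Y (Fin (2 * m)) f

end

end Pool.Agent.W495.TA
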