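import Pool.Agent.W495.TA.Defs
import Pool.Agent.W547.LD.Final

/-!
# The parts of the proof
-/

set_option autoImplicit false

namespace Pool.Agent.W495.TA

open NumberField Pool.Agent.H204R3.CM Pool.Agent.W547.KB Pool.Agent.W547.LD Module
open scoped TensorProduct

noncomputable section

/-! ### Combinatorics of finite group actions -/

/-- A central element `c` of order two without fixed points on the transitive `G`-set `X`. -/
structure Setting (G X : Type) [Group G] [MulAction G X] (c : G) : Prop where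
  comm : ∀ g, c * g = g * c
  sq : c * c = 1
  ne : ∀ x : X, c • x ≠ x
  trans : ∀ x y : X, ∃ g : G, g • x = y

/-- An odd function with values `1` and `-1`. -/
structure IsSign {G X : Type} [SMul G X] (c : G) (ε : X → ℤ) : Prop where
  sign : ∀ x, ε x = 1 ∨ ε x = -1
  odd : ∀ x, ε (c • x) = -ε x

open Classical in
/-- The sums of `ε` over the orbits (with multiplicities) of the subgroup `D` of the points `g x`. -/
def nf {G X : Type} [Group G] [Fintype G] [MulAction G X] (D : Subgroup G) (ε : X → ℤ) (x : X) :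
    G → ℤ := fun g => ∑ d : G, if d ∈ D then ε (d • g • x) else 0

/-- A semi-invariant function. -/
def Semi (G : Type) {X : Type} [SMul G X] (a : X → ℤ) : Prop :=
  ∀ g : G, (∀ x, a (g • x) = a x) ∨ ∀ x, a (g • x) = -a x

open Classical in
/-- The balancing condition. -/
def Bal {G X : Type} [Group G] [Fintype X] [MulAction G X] (ε s : X → ℤ) (r : ℕ) (u : ℤ) : Prop :=
  ∀ (g : G) (x₀ : X), s x₀ = 1 →
    (∑ x, if s x = 1 then ε (g • x) else 0) + r * u * s (g • x₀) = 0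

/-- Relations between the functions `nf D ε x` (at most five pairs of points) are trivial or
semi-invariant. -/
def S_struct : Prop :=
  ∀ (G X : Type) [Group G] [Fintype G] [Fintype X] [MulAction G X] (c : G) (_ : Setting G X c)
    (D : Subgroup G) (ε : X → ℤ) (_ : IsSign c ε) (_ : Fintype.card X ≤ 10) (a : X → ℤ)
    (_ : ∀ x, a (c • x) = -a x) (_ : ∀ x y, nf D ε x = nf D ε y → a x = a y)
    (_ : ∀ g, ∑ x, a x * nf D ε x g = 0),
    a = 0 ∨ (Function.Injective (nf (X := X) D ε) ∧ Semi G a)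

/-- There is no two-dimensional space of relations between the values of a function on four pairs of
points (case of eight points with an action of the group). -/
def S_rank4 : Prop :=
  ∀ (G X : Type) [Group G] [Fintype G] [Fintype X] [MulAction G X] (c : G) (_ : Setting G X c)
    (D : Subgroup G) (ε : X → ℤ) (_ : IsSign c ε) (_ : Fintype.card X = 8)
    (_ : Function.Injective (nf (X := X) D ε)),
    Module.finrank ℚ (Submodule.span ℚ (Set.range fun x : X => fun g : G => (nf D ε x g : ℚ))) ≠ 2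

/-- Five pairs of points: the functions span a space of dimension at least four. -/
def S_rank5 : Prop :=
  ∀ (G X : Type) [Group G] [Fintype G] [Fintype X] [MulAction G X] (c : G) (_ : Setting G X c)
    (n : X → G → ℤ) (_ : ∀ x g h, n (g • x) h = n x (h * g)) (_ : ∀ x, n (c • x) = -n x)
    (_ : Fintype.card X = 10) (_ : Function.Injective n) (a : X → ℤ) (_ : ∀ x, a (c • x) = -a x)
    (_ : ∀ g, ∑ x, a x * n x g = 0) (_ : a ≠ 0),
    Semi G a

/-- The general part: three or four pairs, and the case of functions that are not injective. -/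
def S_rankGen : Prop := S_rank4 → S_rank5 → S_struct

/-- Changing the signs at one pair of points. -/
def S_flip : Prop :=
  ∀ (G X : Type) [Group G] [Fintype G] [Fintype X] [MulAction G X] (c : G) (_ : Setting G X c)
    (D : Subgroup G) (ε : X → ℤ) (_ : IsSign c ε) (_ : Fintype.card X ≤ 10)
    (_ : Function.Injective (nf (X := X) D ε)) (s : X → ℤ) (_ : IsSign c s) (_ : Semi G s)
    (_ : ∀ g, ∑ x, s x * nf D ε x g = 0),
    ∃ (ε' : X → ℤ) (r : ℕ) (u : ℤ), IsSign c ε' ∧ (∀ x, nf D ε' x = nf D ε x) ∧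
      (Fintype.card X + 2 * r = 8 ∨ Fintype.card X + 2 * r = 12) ∧ (u = 1 ∨ u = -1) ∧
      Bal (G := G) ε' s r u

/-- Stability of a property of families of functions on `G`. -/
structure Closed (G : Type) (Q : (κ : Type) → (κ → G → ℤ) → Prop) : Prop where
  empty : ∀ (κ : Type) [IsEmpty κ] (t : κ → G → ℤ), Q κ t
  reindex : ∀ (κ κ' : Type) [Finite κ] (e : κ ≃ κ') (t : κ → G → ℤ) (t' : κ' → G → ℤ),
    (∀ k, t' (e k) = t k) → Q κ t → Q κ' t'
  sum : ∀ (κ κ' : Type) [Finite κ] [Finite κ'] (t : κ → G → ℤ) (t' : κ' → G → ℤ), Q κ t → Q κ' t' →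
    Q (κ ⊕ κ') (Sum.elim t t')
  pair : ∀ f : G → ℤ, Q (Fin 2) ![f, -f]

/-- Two zero functions may be removed. -/
def Cancel (G : Type) (Q : (κ : Type) → (κ → G → ℤ) → Prop) : Prop :=
  ∀ (κ : Type) [Finite κ] (t : κ → G → ℤ), Q (κ ⊕ Fin 2) (Sum.elim t fun _ => 0) → Q κ t

/-- The decomposition of balanced families. -/
def S_induct : Prop :=
  S_struct → S_flip →
  ∀ (G X : Type) [Group G] [Fintype G] [Fintype X] [MulAction G X] (c : G) (_ : Setting G X c)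
    (D : Subgroup G) (ε : X → ℤ) (_ : IsSign c ε) (_ : Fintype.card X ≤ 10)
    (Q : (κ : Type) → (κ → G → ℤ) → Prop) (_ : Closed G Q)
    (_ : ∀ (ε' s : X → ℤ) (r : ℕ) (u : ℤ), IsSign c ε' → (∀ x, nf D ε' x = nf D ε x) →
      Function.Injective (nf (X := X) D ε) → IsSign c s → Semi G s →
      (Fintype.card X + 2 * r = 8 ∨ Fintype.card X + 2 * r = 12) → (u = 1 ∨ u = -1) →
      Bal (G := G) ε' s r u → (∀ g, ∑ x, s x * nf D ε x g = 0) →
      Q ({x : X // s x = 1} ⊕ Fin r) (Sum.elim (fun x => nf D ε x.1) fun _ => 0) ∧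
        (0 < r → Cancel G Q))
    (κ : Type) [Fintype κ] (t : κ → G → ℤ) (_ : ∀ k, t k = 0 ∨ ∃ x : X, t k = nf D ε x)
    (_ : ∀ g, ∑ k, t k g = 0) (_ : Even (Fintype.card κ)), Q κ t

/-! ### The Galois group -/

/-- The decomposition group of the place given by `ν` and `j`. -/
def Dec (p : ℕ) [Fact p.Prime] (ν : PadicAlgCl p ≃+* ℂ) {L : Type} [Field L] [NumberField L]
    (j : L →+* ℂ) : Subgroup (L ≃ₐ[ℚ] L) where
  carrier := {d | ∃ τ : PadicAlgCl p ≃ₐ[ℚ_[p]] PadicAlgCl p, ∀ x, j (d x) = ν (τ (ν.symm (j x)))}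
  mul_mem' := by
    rintro d d' ⟨τ, hτ⟩ ⟨τ', hτ'⟩
    refine ⟨τ * τ', fun x => ?_⟩
    change j (d (d' x)) = ν (τ (τ' (ν.symm (j x))))
    rw [hτ, hτ', ν.symm_apply_apply]
  one_mem' := ⟨1, fun x => (ν.apply_symm_apply _).symm⟩
  inv_mem' := by
    rintro d ⟨τ, hτ⟩
    refine ⟨τ⁻¹, fun x => ?_⟩
    have h1 := hτ (d⁻¹ x)
    have h2 : d (d⁻¹ x) = x := d.apply_symm_apply x
    rw [h2] at h1
    rw [h1, ν.symm_apply_apply]
    change j (d⁻¹ x) = ν (τ.symm (τ (ν.symm (j (d⁻¹ x)))))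
    rw [τ.symm_apply_apply, ν.apply_symm_apply]

open Classical in
/-- The function on the Galois group belonging to a set of automorphisms: the number of elements of
`D σ` in `S` minus the number of elements of `D σ` outside of `S`. -/
def tf (p : ℕ) [Fact p.Prime] (ν : PadicAlgCl p ≃+* ℂ) {L : Type} [Field L] [NumberField L]
    (j : L →+* ℂ) (S : Set (L ≃ₐ[ℚ] L)) : (L ≃ₐ[ℚ] L) → ℤ :=
  fun σ => ∑ d : L ≃ₐ[ℚ] L, if d ∈ Dec p ν j then (if d * σ ∈ S then 1 else -1) else 0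

/-- All complex embeddings of the fields of `X` factor through `j`. -/
def Big {L : Type} [Field L] (X : CMAV) (j : L →+* ℂ) : Prop :=
  ∀ i, ∀ ψ : (X.factor i).E →+* ℂ, ∃ φ : (X.factor i).E →+* L, j.comp φ = ψ

/-- All complex embeddings of the field of `A` factor through `j`. -/
def BigA {L : Type} [Field L] (A : CMPair) (j : L →+* ℂ) : Prop :=
  ∀ ψ : A.E →+* ℂ, ∃ φ : A.E →+* L, j.comp φ = ψ

section

variable {p : ℕ} [Fact p.Prime] {ν : PadicAlgCl p ≃+* ℂ} {Ω : Type} [Field Ω] [CharZero Ω]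
  {L : Type} [Field L]

/-- The coordinate belonging to a weight, on the rational homology. -/
def evO (jO : L →+* Ω) {Y : RedAV p ν} (w : Wt Y.X L) : Y.X.H1 →ₗ[ℚ] Ω where
  toFun x := jO (ev x w)
  map_add' x y := by
    change jO (w.2 ((x + y) w.1)) = jO (w.2 (x w.1)) + jO (w.2 (y w.1))
    rw [← map_add, ← map_add]
    rfl
  map_smul' a x := by
    change jO (w.2 (a • x w.1)) = a • jO (w.2 (x w.1))
    rw [Rat.smul_def, map_mul, map_mul, map_ratCast, map_ratCast, Rat.smul_def]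

/-- The coordinate belonging to a weight, on the Tate module. -/
def co (jO : L →+* Ω) {Y : RedAV p ν} (w : Wt Y.X L) : TM Ω Y →ₗ[Ω] Ω :=
  LinearMap.liftBaseChange Ω (evO jO w)

/-- The alternated product of coordinates. -/
def monoO (jO : L →+* Ω) {Y : RedAV p ν} {κ : Type} [Fintype κ] [DecidableEq κ]
    (I : κ → Wt Y.X L) : (TM Ω Y) [⋀^κ]→ₗ[Ω] Ω :=
  MultilinearMap.alternatization
    ((MultilinearMap.mkPiAlgebra Ω κ Ω).compLinearMap fun k => co jO (I k))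

end

/-- All monomials with the given functions on the Galois group, on all abelian varieties over
finite fields, belong to the system `Alg`. -/
def AlgM (p : ℕ) [Fact p.Prime] (ν : PadicAlgCl p ≃+* ℂ) {Ω : Type} [Field Ω] [CharZero Ω]
    {L : Type} [Field L] [NumberField L] (j : L →+* ℂ) (jO : L →+* Ω) (κ : Type)
    (t : κ → (L ≃ₐ[ℚ] L) → ℤ) : Prop :=
  ∀ [Fintype κ] [DecidableEq κ] (Y : RedAV p ν), Big Y.X j → ∀ I : κ → Wt Y.X L,
    (∀ k, tf p ν j (St j (I k)) = t k) → Alg Ω Y κ (monoO jO I)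

/-- The formula of Shimura and Taniyama in terms of the Galois group. -/
def S_val : Prop :=
  ∀ (p : ℕ) [Fact p.Prime] (ν : PadicAlgCl p ≃+* ℂ) (L : Type) [Field L] [NumberField L]
    [IsCMField L] [IsGalois ℚ L] (j : L →+* ℂ) (A : CMPair) (_ : BigA A j) (a : ℕ) (π : A.E),
    (∀ φ : A.E →+* ℂ,
      ‖ν.symm (φ π)‖ ^ Nat.card {φ' : A.E →+* ℂ // SamePlace p ν φ φ'} =
        ‖(p : PadicAlgCl p) ^ a‖ ^ Nat.card {φ' : A.E →+* ℂ // SamePlace p ν φ φ' ∧ φ' ∈ A.Φ}) ↔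
    ∀ φ : A.E →+* L, ‖ν.symm (j (φ π))‖ ^ (2 * (Nat.card (Dec p ν j) : ℤ)) =
      ‖(p : PadicAlgCl p) ^ a‖ ^ ((Nat.card (Dec p ν j) : ℤ) + tf p ν j (hs A j φ) 1)

/-- Weil numbers with the same valuations at all places above `p` agree up to roots of unity. -/
def S_ru : Prop :=
  ∀ (p : ℕ) [Fact p.Prime] (ν : PadicAlgCl p ≃+* ℂ) (L : Type) [Field L] [NumberField L]
    [IsCMField L] [IsGalois ℚ L] (j : L →+* ℂ) (α β : L) (a b : ℕ) (_ : 0 < a) (_ : 0 < b)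
    (_ : IsIntegral ℤ α) (_ : IsIntegral ℤ β) (_ : ∀ ψ : L →+* ℂ, ‖ψ α‖ ^ 2 = (p : ℝ) ^ a)
    (_ : ∀ ψ : L →+* ℂ, ‖ψ β‖ ^ 2 = (p : ℝ) ^ b)
    (_ : ∀ σ : L ≃ₐ[ℚ] L, ‖ν.symm (j (σ α))‖ ^ b = ‖ν.symm (j (σ β))‖ ^ a),
    ∃ n : ℕ, 0 < n ∧ α ^ (b * n) = β ^ (a * n)

/-- The eigenbasis of the Tate module. -/
def S_basis : Prop :=
  ∀ (p : ℕ) [Fact p.Prime] (ν : PadicAlgCl p ≃+* ℂ) (Ω : Type) [Field Ω] [CharZero Ω] (L : Type)
    [Field L] [NumberField L] (j : L →+* ℂ) (jO : L →+* Ω) (Y : RedAV p ν) (_ : Big Y.X j),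
    ∃ e : Basis (Wt Y.X L) Ω (TM Ω Y), (∀ w, co jO w (e w) = 1) ∧
      ∀ w w', w ≠ w' → co jO w (e w') = 0

/-- From monomials to arbitrary forms. -/
def S_expand : Prop :=
  ∀ (p : ℕ) [Fact p.Prime] (ν : PadicAlgCl p ≃+* ℂ) (Ω : Type) [Field Ω] [CharZero Ω] (L : Type)
    [Field L] [NumberField L] (jO : L →+* Ω) (Y : RedAV p ν)
    (e : Basis (Wt Y.X L) Ω (TM Ω Y)) (_ : ∀ w, co jO w (e w) = 1)
    (_ : ∀ w w', w ≠ w' → co jO w (e w') = 0) (κ : Type) [Fintype κ] [DecidableEq κ]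
    (f : (TM Ω Y) [⋀^κ]→ₗ[Ω] Ω)
    (_ : ∀ I : κ → Wt Y.X L, f (fun k => e (I k)) ≠ 0 → Alg Ω Y κ (monoO jO I)), Alg Ω Y κ f

/-- Weights with the same functions have the same Frobenius eigenvalues up to powers: pull-backs
along homomorphisms given by matching weights. -/
def S_pull : Prop :=
  S_val → S_ru → S_basis →
  ∀ (p : ℕ) [Fact p.Prime] (ν : PadicAlgCl p ≃+* ℂ) (Ω : Type) [Field Ω] [CharZero Ω] (L : Type)
    [Field L] [NumberField L] [IsCMField L] [IsGalois ℚ L] (j : L →+* ℂ) (jO : L →+* Ω)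
    (Z : RedAV p ν) (_ : Big Z.X j) (κ : Type) [Fintype κ] [DecidableEq κ] (J : κ → Wt Z.X L)
    (_ : Function.Injective J) (_ : Alg Ω Z κ (monoO jO J)),
    AlgM p ν j jO κ (fun k => tf p ν j (St j (J k)))

/-- The first closure properties. -/
def S_closed1 : Prop :=
  S_val → S_ru →
  ∀ (p : ℕ) [Fact p.Prime] (ν : PadicAlgCl p ≃+* ℂ) (Ω : Type) [Field Ω] [CharZero Ω] (L : Type)
    [Field L] [NumberField L] [IsCMField L] [IsGalois ℚ L] (j : L →+* ℂ) (jO : L →+* Ω),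
    (∀ (κ : Type) [IsEmpty κ] (t : κ → (L ≃ₐ[ℚ] L) → ℤ), AlgM p ν j jO κ t) ∧
    (∀ (κ κ' : Type) [Finite κ] (e : κ ≃ κ') (t : κ → (L ≃ₐ[ℚ] L) → ℤ)
      (t' : κ' → (L ≃ₐ[ℚ] L) → ℤ), (∀ k, t' (e k) = t k) → AlgM p ν j jO κ t →
        AlgM p ν j jO κ' t') ∧
    (∀ (κ κ' : Type) [Finite κ] [Finite κ'] (t : κ → (L ≃ₐ[ℚ] L) → ℤ)
      (t' : κ' → (L ≃ₐ[ℚ] L) → ℤ), AlgM p ν j jO κ t → AlgM p ν j jO κ' t' →
        AlgM p ν j jO (κ ⊕ κ') (Sum.elim t t')) ∧
    (∀ f : (L ≃ₐ[ℚ] L) → ℤ, AlgM p ν j jO (Fin 2) ![f, -f])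

/-- Push-forward along a supersingular elliptic curve: two zero functions may be removed, provided
there is a supersingular abelian variety of CM type whose weights are two. -/
def S_push : Prop :=
  S_basis →
  ∀ (p : ℕ) [Fact p.Prime] (ν : PadicAlgCl p ≃+* ℂ) (Ω : Type) [Field Ω] [CharZero Ω] (L : Type)
    [Field L] [NumberField L] [IsCMField L] [IsGalois ℚ L] (j : L →+* ℂ) (jO : L →+* Ω)
    (E : RedAV p ν) (_ : Big E.X j) (w : Fin 2 ≃ Wt E.X L)
    (_ : ∀ k, tf p ν j (St j (w k)) = 0) (κ : Type) [Finite κ] (t : κ → (L ≃ₐ[ℚ] L) → ℤ),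
    AlgM p ν j jO (κ ⊕ Fin 2) (Sum.elim t fun _ => 0) → AlgM p ν j jO κ t

/-- The family belonging to a Weil class. -/
def S_weil : Prop :=
  S_val → S_ru → S_basis → S_pull →
  ∀ (p : ℕ) [Fact p.Prime] (ν : PadicAlgCl p ≃+* ℂ) (Ω : Type) [Field Ω] [CharZero Ω] (L : Type)
    [Field L] [NumberField L] [IsCMField L] [IsGalois ℚ L] (j : L →+* ℂ) (jO : L →+* Ω)
    (A : CMPair) (_ : BigA A j) (b : ℕ) (_ : 0 < b) (ϖ : A.E) (_ : IsFrobenius p ν A b ϖ)
    (_ : Function.Injective fun φ : A.E →+* L => tf p ν j (hs A j φ))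
    (ε s : (A.E →+* L) → ℤ) (_ : ∀ φ, ε φ = 1 ↔ j.comp φ ∈ A.Φ) (_ : IsSign (cc L) ε)
    (_ : IsSign (cc L) s) (_ : Semi (L ≃ₐ[ℚ] L) s) [Fintype (A.E →+* L)] (r : ℕ) (u : ℤ)
    (_ : Fintype.card (A.E →+* L) + 2 * r = 8 ∨ Fintype.card (A.E →+* L) + 2 * r = 12)
    (_ : u = 1 ∨ u = -1) (_ : Bal (G := L ≃ₐ[ℚ] L) ε s r u)
    (_ : ∀ σ, ∑ φ, s φ * tf p ν j (hs A j φ) σ = 0),
    AlgM p ν j jO ({φ : A.E →+* L // s φ = 1} ⊕ Fin r)
      (Sum.elim (fun φ => tf p ν j (hs A j φ.1)) fun _ => 0)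

/-- In the situation of the last statement, with `r > 0`, there is a supersingular elliptic curve with
complex multiplication by an imaginary quadratic subfield of `L`. -/
def S_ss : Prop :=
  S_val →
  ∀ (p : ℕ) [Fact p.Prime] (ν : PadicAlgCl p ≃+* ℂ) (L : Type)
    [Field L] [NumberField L] [IsCMField L] [IsGalois ℚ L] (j : L →+* ℂ)
    (A : CMPair) (_ : BigA A j)
    (ε s : (A.E →+* L) → ℤ) (_ : ∀ φ, ε φ = 1 ↔ j.comp φ ∈ A.Φ) (_ : IsSign (cc L) ε)
    (_ : IsSign (cc L) s) (_ : Semi (L ≃ₐ[ℚ] L) s) [Fintype (A.E →+* L)] (r : ℕ) (u : ℤ)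
    (_ : u = 1 ∨ u = -1) (_ : Bal (G := L ≃ₐ[ℚ] L) ε s r u)
    (_ : ∀ σ, ∑ φ, s φ * tf p ν j (hs A j φ) σ = 0) (_ : 0 < r),
    ∃ (E : RedAV p ν) (_ : Big E.X j) (w : Fin 2 ≃ Wt E.X L), ∀ k, tf p ν j (St j (w k)) = 0

end

end Pool.Agent.W495.TA
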